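import Pool.Agent.H6.MSL.One

/-!
# The contradiction for every large prime
-/

set_option autoImplicit false

namespace Pool.Agent.H6.MSL

open Pool.Agent.H6.MS

/-- Periodic approximation is impossible for large primes. -/
theorem contra_one : ∃ P : ℕ, ∀ (p : ℕ) [Fact p.Prime], P ≤ p →
    (∀ (f : Fin 8 → (ℤ × ℤ × ℤ) → ZMod p)
      (_ : ∀ i q v, v ∈ VV i → f i (q + v) = f i q)
      (W : Finset (ℤ × ℤ × ℤ)) (ε : ℝ) (_ : 0 < ε),
      ∃ (N : ℕ) (_ : NeZero N) (g : Fin 8 → (ℤ × ℤ × ℤ) → ZMod p),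
        (∀ i q v, v ∈ VV i → g i (q + v) = g i q) ∧
        (∀ i q (v : ℤ × ℤ × ℤ), g i (q + (N : ℤ) • v) = g i q) ∧
        (Nat.card {t : ZMod N × ZMod N × ZMod N //
          ¬ ∃ q : ℤ × ℤ × ℤ, ∀ i, ∀ w ∈ W,
            g i (((t.1.val : ℤ), (t.2.1.val : ℤ), (t.2.2.val : ℤ)) + w) = f i (q + w)} : ℝ)
          ≤ ε * (N : ℝ) ^ 3) → False := by
  classical
  obtain ⟨δ, hδ, hrob⟩ := robust
  refine ⟨⌈10160 / δ⌉₊ + 1, fun p hpF hp1 PA => ?_⟩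
  have hp := hpF.out
  have hp0 : (1 : ℝ) ≤ p := by exact_mod_cast hp.one_lt.le
  have hpos : (0 : ℝ) < p := by linarith
  have : NeZero p := ⟨hp.ne_zero⟩
  have hη : 5080 * (1 / (p : ℝ)) ^ 2 ≤ δ / 2 := by
    have h1 : 10160 / δ ≤ p := by
      have h2 := Nat.le_ceil (10160 / δ)
      have h3 : ((⌈10160 / δ⌉₊ + 1 : ℕ) : ℝ) ≤ p := by exact_mod_cast hp1
      push_cast at h3
      linarith
    rw [div_le_iff₀ hδ] at h1
    rw [one_div, inv_pow]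
    rw [mul_inv_le_iff₀ (by positivity)]
    nlinarith
  obtain ⟨N, hN, g, hg, hper, hcard⟩ := PA (ff p) (ff_inv p)
    {0, (1, 0, 0), (0, 1, 0)} (δ / 50) (by positivity)
  have hNpos : (0 : ℝ) < N := Nat.cast_pos.mpr (NeZero.pos N)
  obtain ⟨Ga, hGa⟩ : ∃ Ga : Fin 8 → ZMod N → ZMod N → ℝ,
      ∀ i u v, Ga i u v = mid (g i (psi i ((u.val : ℤ), (v.val : ℤ)))) := ⟨_, fun _ _ _ => rfl⟩
  have h1 := hrob N (fun x => Ga 0 x 0) (fun y => Ga 1 y 0) (fun s => Ga 2 s 0) (Ga 3) (Ga 4)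
    (Ga 5) (Ga 6) (Ga 7) (fun x => by simp only [hGa]; exact ⟨mid_nonneg _, mid_le_one _⟩)
    (fun x => by simp only [hGa]; exact ⟨mid_nonneg _, mid_le_one _⟩)
  rw [Nat.card_eq_fintype_card, Fintype.card_subtype] at hcard
  obtain ⟨B, hB⟩ : ∃ B : Finset (ZMod N × ZMod N × ZMod N), B = Finset.univ.filter
      (fun t : ZMod N × ZMod N × ZMod N =>
        ¬ ∃ q : ℤ × ℤ × ℤ, ∀ i, ∀ w ∈ ({0, (1, 0, 0), (0, 1, 0)} : Finset (ℤ × ℤ × ℤ)),
          g i (((t.1.val : ℤ), (t.2.1.val : ℤ), (t.2.2.val : ℤ)) + w) = ff p i (q + w)) := ⟨_, rfl⟩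
  rw [← hB] at hcard
  have h2 : ∀ t : ZMod N × ZMod N × ZMod N,
      defect (fun x => Ga 0 x 0) (fun y => Ga 1 y 0) (fun s => Ga 2 s 0) (Ga 3) (Ga 4)
        (Ga 5) (Ga 6) (Ga 7) t.1 t.2.1 t.2.2 ≤ δ / 2 + (if t ∈ B then 24 else 0) := by
    intro t
    split_ifs with ht
    · refine (defect_le _ _ _ _ _ _ _ _ _ _ _).trans ?_
      linarith
    · have h3 : ∃ q : ℤ × ℤ × ℤ, ∀ i, ∀ w ∈ ({0, (1, 0, 0), (0, 1, 0)} : Finset (ℤ × ℤ × ℤ)),
          g i (((t.1.val : ℤ), (t.2.1.val : ℤ), (t.2.2.val : ℤ)) + w) = ff p i (q + w) := by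
        by_contra hcon
        exact ht (by rw [hB]; exact Finset.mem_filter.mpr ⟨Finset.mem_univ _, hcon⟩)
      obtain ⟨q, hq⟩ := h3
      have h4 := good_defect g hg hper Ga hGa t.1 t.2.1 t.2.2 q hq
      linarith
  have h5 : ∑ x : ZMod N, ∑ y : ZMod N, ∑ z : ZMod N,
      defect (fun x => Ga 0 x 0) (fun y => Ga 1 y 0) (fun s => Ga 2 s 0) (Ga 3) (Ga 4)
        (Ga 5) (Ga 6) (Ga 7) x y z ≤ ∑ t : ZMod N × ZMod N × ZMod N,
          (δ / 2 + (if t ∈ B then 24 else 0)) := by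
    have h6 := Finset.sum_le_sum (s := Finset.univ) fun t (_ : t ∈ Finset.univ) => h2 t
    refine le_trans (le_of_eq ?_) h6
    rw [Fintype.sum_prod_type]
    refine Finset.sum_congr rfl fun x _ => ?_
    rw [Fintype.sum_prod_type]
  have h7 : ∑ t : ZMod N × ZMod N × ZMod N, (δ / 2 + (if t ∈ B then (24 : ℝ) else 0)) =
      (N : ℝ) ^ 3 * (δ / 2) + 24 * B.card := by
    rw [Finset.sum_add_distrib, Finset.sum_const, Finset.card_univ, nsmul_eq_mul,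
      Fintype.card_prod, Fintype.card_prod, ZMod.card, ← Finset.sum_filter]
    simp
    ring
  rw [h7] at h5
  have h8 : (0 : ℝ) < (N : ℝ) ^ 3 * δ := by positivity
  nlinarith

end Pool.Agent.H6.MSL
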