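import Pool.Agent.H6.MSL.Words
import Pool.Agent.H6.MS.Final
import Pool.Agent.H36.MS.REDD
import Pool.Agent.H78.MS.REDB
import Pool.Agent.H6.MS.Extract

/-!
# Periodic approximation from the stability of one group
-/

set_option autoImplicit false

open Filter Topology

namespace Pool.Agent.H6.MSL

open Pool.Agent.H6.MS Pool.Agent.H36.MS

/-- Periodic approximation from the stability of one group `G p V`. -/
theorem periodic_one (p : ℕ) [Fact p.Prime] (n : ℕ) (V : Fin n → AddSubgroup (ℤ × ℤ × ℤ))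
    (H : SeqStable (G p V))
    (f : Fin n → (ℤ × ℤ × ℤ) → ZMod p)
    (hf : ∀ i q v, v ∈ V i → f i (q + v) = f i q)
    (W : Finset (ℤ × ℤ × ℤ)) (ε : ℝ) (hε : 0 < ε) :
    ∃ (N : ℕ) (_ : NeZero N) (g : Fin n → (ℤ × ℤ × ℤ) → ZMod p),
      (∀ i q v, v ∈ V i → g i (q + v) = g i q) ∧
      (∀ i q (v : ℤ × ℤ × ℤ), g i (q + (N : ℤ) • v) = g i q) ∧
      (Nat.card {t : ZMod N × ZMod N × ZMod N //
        ¬ ∃ q : ℤ × ℤ × ℤ, ∀ i, ∀ w ∈ W,
          g i (((t.1.val : ℤ), (t.2.1.val : ℤ), (t.2.2.val : ℤ)) + w) = f i (q + w)} : ℝ)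
        ≤ ε * (N : ℝ) ^ 3 := by
  classical
  have hp0 : NeZero p := ⟨(Fact.out : p.Prime).ne_zero⟩
  let e : ∀ k : ℕ, Om p (k + 1) ≃ Fin (Nat.card (Om p (k + 1))) :=
    fun k => Finite.equivFin (Om p (k + 1))
  obtain ⟨φ, hφ⟩ := H
    (fun k => Nat.card (Om p (k + 1)))
    (fun k g => (e k).permCongr (sig V f (k + 1) g)) (by
      intro g h
      have h1 := Pool.Agent.H6.MS.sig_tendsto V f hf g h
      refine h1.congr fun k => ?_
      congr 2
      refine (card_transfer (e k) _ _ fun ω => ?_).symm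
      simp only [Equiv.permCongr_apply, Equiv.Perm.coe_mul, Function.comp_apply,
        Equiv.symm_apply_apply, ne_eq, EmbeddingLike.apply_eq_iff_eq])
  let τ : ∀ k : ℕ, G p V →* Equiv.Perm (Om p (k + 1)) := fun k =>
    { toFun := fun g => (e k).symm.permCongr (φ k g)
      map_one' := by
        ext1 ω
        simp [Equiv.permCongr_apply]
      map_mul' := by
        intro g h
        ext1 ω
        simp [Equiv.permCongr_apply] }
  have hτ : ∀ g : G p V, Tendsto (fun k : ℕ =>
      (Nat.card {ω : Om p (k + 1) // sig V f (k + 1) g ω ≠ τ k g ω} : ℝ) /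
        (Nat.card (Om p (k + 1)) : ℝ)) atTop (𝓝 0) := by
    intro g
    refine (hφ g).congr fun k => ?_
    congr 2
    refine card_transfer (e k) _ _ fun ω => ?_
    change (e k) (sig V f (k + 1) g ((e k).symm (e k ω))) ≠ φ k g (e k ω) ↔
      sig V f (k + 1) g ω ≠ (e k).symm (φ k g ((e k).symm.symm ω))
    rw [Equiv.symm_apply_apply, Equiv.symm_symm, ne_eq, ne_eq, Equiv.eq_symm_apply]
  set K : Finset (G p V) := Finset.univ.image (fun c : ZMod p => base p V none c) ∪
    ((Finset.univ : Finset (Fin n)) ×ˢ W).image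
      (fun x => base p V (some ⟨x.1, ((x.2 : Q) : Q ⧸ V x.1)⟩) 1) with hK
  have hsum : Tendsto (fun k : ℕ => ∑ g ∈ K,
      (Nat.card {ω : Om p (k + 1) // sig V f (k + 1) g ω ≠ τ k g ω} : ℝ) /
        (Nat.card (Om p (k + 1)) : ℝ)) atTop (𝓝 0) := by
    have h1 := tendsto_finsetSum K (fun g _ => hτ g)
    simpa using h1
  have hε' : 0 < min ε (1 / 2) := lt_min hε (by norm_num)
  obtain ⟨k, hk⟩ := (hsum.eventually (gt_mem_nhds hε')).exists
  have hpos : (0 : ℝ) < (Nat.card (Om p (k + 1)) : ℝ) := by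
    have : 0 < Nat.card (Om p (k + 1)) := Nat.card_pos
    exact_mod_cast this
  obtain ⟨N, hN, g, hg1, hg2, hg3⟩ := Pool.Agent.H6.MS.extract V f (τ k) W (min ε (1 / 2))
    (lt_of_le_of_lt (min_le_right _ _) (by norm_num)) (by
      have h1 := card_union_bound K
        (fun ω : Om p (k + 1) => ¬ ((∀ c : ZMod p, τ k (base p V none c) ω = (ω.1, ω.2 + c)) ∧
          ∀ i, ∀ w ∈ W, τ k (base p V (some ⟨i, ((w : Q) : Q ⧸ V i)⟩) 1) ω =
            (ω.1, ω.2 + f i (w + rep ω.1))))
        (fun g ω => sig V f (k + 1) g ω ≠ τ k g ω) (by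
          intro ω hω
          by_contra hcon
          push Not at hcon
          apply hω
          refine ⟨fun c => ?_, fun i w hw => ?_⟩
          · rw [← hcon (base p V none c) (by
              rw [hK, Finset.mem_union]
              exact Or.inl (Finset.mem_image.mpr ⟨c, Finset.mem_univ _, rfl⟩))]
            exact sig_base_none V f (k + 1) c ω
          · rw [← hcon (base p V (some ⟨i, ((w : Q) : Q ⧸ V i)⟩) 1) (by
              rw [hK, Finset.mem_union]
              exact Or.inr (Finset.mem_image.mpr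
                ⟨(i, w), Finset.mem_product.mpr ⟨Finset.mem_univ _, hw⟩, rfl⟩))]
            exact sig_base_some V f (k + 1) hf i w ω)
      rw [← Finset.sum_div, div_lt_iff₀ hpos] at hk
      have h2 : (Nat.card {ω : Om p (k + 1) //
          ¬ ((∀ c : ZMod p, τ k (base p V none c) ω = (ω.1, ω.2 + c)) ∧
          ∀ i, ∀ w ∈ W, τ k (base p V (some ⟨i, ((w : Q) : Q ⧸ V i)⟩) 1) ω =
            (ω.1, ω.2 + f i (w + rep ω.1)))} : ℝ) ≤
          ∑ g ∈ K, (Nat.card {ω : Om p (k + 1) // sig V f (k + 1) g ω ≠ τ k g ω} : ℝ) := by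
        exact_mod_cast h1
      exact le_trans h2 hk.le)
  refine ⟨N, hN, g, hg1, hg2, le_trans hg3 ?_⟩
  exact mul_le_mul_of_nonneg_right (min_le_left _ _) (by positivity)

end Pool.Agent.H6.MSL
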