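import Mathlib

/-!
# Permutation stability: from the definition by words to the definition by sequences
-/

set_option autoImplicit false

open Filter Topology

namespace Pool.Agent.H6.MSL

/-- The normalized Hamming distance on `Sym(n)`. -/
noncomputable def hd {n : ℕ} (σ τ : Equiv.Perm (Fin n)) : ℝ :=
  ((Finset.univ.filter (fun i : Fin n => σ i ≠ τ i)).card : ℝ) / (n : ℝ)

/-- Permutation stability of `F/N`, `F` the free group on `k` letters, in the words of the problem
file: for every `ε > 0` there are `δ > 0` and a finite set `R ⊆ N` such that for all `n` and all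
`σ ∈ Sym(n)^k` with `d(r(σ), id) < δ` for all `r ∈ R` there is `τ ∈ Sym(n)^k` with `w(τ) = id` for
all `w ∈ N` and `d(σ_i, τ_i) < ε` for all `i`. -/
def PStable (k : ℕ) (N : Subgroup (FreeGroup (Fin k))) : Prop :=
  ∀ ε : ℝ, 0 < ε → ∃ δ : ℝ, 0 < δ ∧ ∃ R : Finset (FreeGroup (Fin k)), (∀ r ∈ R, r ∈ N) ∧
    ∀ (n : ℕ) (σ : Fin k → Equiv.Perm (Fin n)),
      (∀ r ∈ R, hd (FreeGroup.lift σ r) 1 < δ) →
      ∃ τ : Fin k → Equiv.Perm (Fin n),
        (∀ w ∈ N, FreeGroup.lift τ w = 1) ∧ ∀ i, hd (σ i) (τ i) < ε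

/-- Permutation stability by sequences (as in the frozen statements). -/
def SeqStable (G : Type) [Group G] : Prop :=
  ∀ (n : ℕ → ℕ) (f : ∀ k : ℕ, G → Equiv.Perm (Fin (n k))),
    (∀ g h : G, Tendsto
      (fun k : ℕ => ((Finset.univ.filter
        (fun i : Fin (n k) => f k (g * h) i ≠ (f k g * f k h) i)).card : ℝ) / (n k : ℝ))
      atTop (𝓝 0)) →
    ∃ φ : ∀ k : ℕ, G →* Equiv.Perm (Fin (n k)),
      ∀ g : G, Tendsto
        (fun k : ℕ => ((Finset.univ.filter
          (fun i : Fin (n k) => f k g i ≠ φ k g i)).card : ℝ) / (n k : ℝ))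
        atTop (𝓝 0)

variable {n : ℕ}

lemma hd_nonneg (σ τ : Equiv.Perm (Fin n)) : 0 ≤ hd σ τ := by unfold hd; positivity

@[simp] lemma hd_self (σ : Equiv.Perm (Fin n)) : hd σ σ = 0 := by simp [hd]

lemma hd_comm (σ τ : Equiv.Perm (Fin n)) : hd σ τ = hd τ σ := by
  unfold hd
  simp only [ne_comm]

lemma hd_triangle (σ τ ρ : Equiv.Perm (Fin n)) : hd σ ρ ≤ hd σ τ + hd τ ρ := by
  unfold hd
  rw [← add_div]
  apply div_le_div_of_nonneg_right _ (Nat.cast_nonneg n)
  norm_cast
  refine le_trans (Finset.card_le_card ?_) (Finset.card_union_le _ _)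
  intro i hi
  simp only [Finset.mem_filter, Finset.mem_univ, true_and, Finset.mem_union] at hi ⊢
  by_contra h
  push Not at h
  exact hi (h.1.trans h.2)

lemma hd_mul_left (ρ σ τ : Equiv.Perm (Fin n)) : hd (ρ * σ) (ρ * τ) = hd σ τ := by
  unfold hd
  congr 3
  ext i
  simp

lemma hd_mul_right (ρ σ τ : Equiv.Perm (Fin n)) : hd (σ * ρ) (τ * ρ) = hd σ τ := by
  unfold hd
  congr 1
  norm_cast
  refine Finset.card_bij' (fun i _ => ρ i) (fun i _ => ρ.symm i) ?_ ?_ ?_ ?_
  · intro i hi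
    rw [Finset.mem_filter] at hi ⊢
    exact ⟨Finset.mem_univ _, hi.2⟩
  · intro i hi
    rw [Finset.mem_filter] at hi ⊢
    refine ⟨Finset.mem_univ _, ?_⟩
    simpa using hi.2
  · intro i _
    simp
  · intro i _
    simp

lemma hd_mul_le (a b c d : Equiv.Perm (Fin n)) : hd (a * b) (c * d) ≤ hd a c + hd b d := by
  have h1 := hd_triangle (a * b) (a * d) (c * d)
  rw [hd_mul_left, hd_mul_right] at h1
  linarith

lemma hd_inv (σ τ : Equiv.Perm (Fin n)) : hd σ⁻¹ τ⁻¹ = hd σ τ := by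
  have h1 := hd_mul_left σ σ⁻¹ τ⁻¹
  have h2 := hd_mul_right τ (σ * σ⁻¹) (σ * τ⁻¹)
  rw [← h1, ← h2, mul_inv_cancel, one_mul, inv_mul_cancel_right, hd_comm]

/-- Words evaluated at an almost homomorphism. -/
lemma word_close {G : Type} [Group G] {m : ℕ} (π : FreeGroup (Fin m) →* G) (n : ℕ → ℕ)
    (f : ∀ k : ℕ, G → Equiv.Perm (Fin (n k)))
    (hf : ∀ g h : G, Tendsto (fun k : ℕ => hd (f k (g * h)) (f k g * f k h)) atTop (𝓝 0))
    (w : FreeGroup (Fin m)) :
    Tendsto (fun k : ℕ => hd (FreeGroup.lift (fun i => f k (π (FreeGroup.of i))) w)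
      (f k (π w))) atTop (𝓝 0) := by
  have hone : Tendsto (fun k : ℕ => hd 1 (f k 1)) atTop (𝓝 0) := by
    refine (hf 1 1).congr fun k => ?_
    have h1 := hd_mul_left (f k 1) 1 (f k 1)
    rw [mul_one] at h1
    rw [mul_one, h1]
  induction w using FreeGroup.induction_on with
  | C1 => simpa using hone
  | of i => simp
  | inv_of i _ =>
    refine squeeze_zero (fun k => hd_nonneg _ _) (fun k => ?_)
      (by simpa using hone.add (hf (π (FreeGroup.of i)) (π (FreeGroup.of i))⁻¹))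
    · have h1 := hd_triangle 1 (f k 1)
        (f k (π (FreeGroup.of i)) * f k (π (FreeGroup.of i))⁻¹)
      have h2 := hd_mul_left (f k (π (FreeGroup.of i))) (f k (π (FreeGroup.of i)))⁻¹
        (f k (π (FreeGroup.of i))⁻¹)
      rw [mul_inv_cancel] at h2
      rw [map_inv, map_inv, FreeGroup.lift_apply_of, ← h2]
      exact h1
  | mul x y hx hy =>
    refine squeeze_zero (fun k => hd_nonneg _ _) (fun k => ?_)
      (by simpa using (hx.add hy).add (hf (π x) (π y)))
    rw [map_mul, map_mul]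
    refine (hd_triangle _ (f k (π x) * f k (π y)) _).trans ?_
    rw [hd_comm (f k (π x) * f k (π y))]
    exact add_le_add (hd_mul_le _ _ _ _) le_rfl

/-- Words evaluated at close tuples. -/
lemma word_close' {m : ℕ} (n : ℕ → ℕ) (σ τ : ∀ k : ℕ, Fin m → Equiv.Perm (Fin (n k)))
    (h : ∀ i, Tendsto (fun k : ℕ => hd (σ k i) (τ k i)) atTop (𝓝 0))
    (w : FreeGroup (Fin m)) :
    Tendsto (fun k : ℕ => hd (FreeGroup.lift (σ k) w) (FreeGroup.lift (τ k) w))
      atTop (𝓝 0) := by
  induction w using FreeGroup.induction_on with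
  | C1 => simp
  | of i => simpa using h i
  | inv_of i _ => simpa [hd_inv] using h i
  | mul x y hx hy =>
    refine squeeze_zero (fun k => hd_nonneg _ _) (fun k => ?_) (by simpa using hx.add hy)
    rw [map_mul, map_mul]
    exact hd_mul_le _ _ _ _

/-- Stability by words implies stability by sequences. -/
theorem seqStable_of_pStable {G : Type} [Group G] {m : ℕ} (π : FreeGroup (Fin m) →* G)
    (hπ : Function.Surjective π) (hP : PStable m π.ker) : SeqStable G := by
  intro n f hf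
  have hf' : ∀ g h : G, Tendsto (fun k : ℕ => hd (f k (g * h)) (f k g * f k h)) atTop (𝓝 0) := hf
  let σ : ∀ k : ℕ, Fin m → Equiv.Perm (Fin (n k)) := fun k i => f k (π (FreeGroup.of i))
  have hne : ∀ k : ℕ, Nonempty {τ : Fin m → Equiv.Perm (Fin (n k)) //
      ∀ w ∈ π.ker, FreeGroup.lift τ w = 1} := fun k => ⟨⟨fun _ => 1, fun w _ => by
        have : FreeGroup.lift (fun _ : Fin m => (1 : Equiv.Perm (Fin (n k)))) = 1 := by
          ext1 i
          simp
        rw [this]
        rfl⟩⟩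
  have hmin : ∀ k : ℕ, ∃ τ : {τ : Fin m → Equiv.Perm (Fin (n k)) //
      ∀ w ∈ π.ker, FreeGroup.lift τ w = 1}, ∀ τ' : {τ : Fin m → Equiv.Perm (Fin (n k)) //
      ∀ w ∈ π.ker, FreeGroup.lift τ w = 1},
      ∑ i, hd (σ k i) (τ.1 i) ≤ ∑ i, hd (σ k i) (τ'.1 i) := fun k => by
    have := hne k
    exact Finite.exists_min _
  choose τ hτ using hmin
  have hsum : Tendsto (fun k : ℕ => ∑ i, hd (σ k i) ((τ k).1 i)) atTop (𝓝 0) := by
    rw [Metric.tendsto_atTop]
    intro ε hε
    obtain ⟨δ, hδ, R, hR, hst⟩ := hP (ε / (m + 1)) (by positivity)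
    have hev : ∀ᶠ k in atTop, ∀ r ∈ R, hd (FreeGroup.lift (σ k) r) 1 < δ := by
      rw [Filter.eventually_all_finset]
      intro r hr
      have h1 := word_close π n f hf' r
      have h2 : π r = 1 := hR r hr
      have h3 := word_close π n f hf' 1
      rw [map_one] at h3
      have h4 : Tendsto (fun k : ℕ => hd (FreeGroup.lift (σ k) r) (f k (π r)) +
          hd (FreeGroup.lift (σ k) 1) (f k 1)) atTop (𝓝 0) := by
        simpa using h1.add h3
      filter_upwards [h4.eventually (gt_mem_nhds hδ)] with k hk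
      rw [h2, map_one] at hk
      refine lt_of_le_of_lt (hd_triangle _ (f k 1) _) ?_
      rw [hd_comm (f k 1) 1]
      exact hk
    obtain ⟨K, hK⟩ := Filter.eventually_atTop.mp hev
    refine ⟨K, fun k hk => ?_⟩
    obtain ⟨τ', h1, h2⟩ := hst (n k) (σ k) (hK k hk)
    have h3 := hτ k ⟨τ', h1⟩
    have h4 : ∑ i, hd (σ k i) (τ' i) ≤ ∑ _i : Fin m, ε / (m + 1) :=
      Finset.sum_le_sum fun i _ => (h2 i).le
    rw [Finset.sum_const, Finset.card_univ, Fintype.card_fin, nsmul_eq_mul] at h4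
    have h5 : (m : ℝ) * (ε / (m + 1)) < ε := by
      rw [mul_div_assoc', div_lt_iff₀ (by positivity)]
      nlinarith
    rw [Real.dist_eq, sub_zero, abs_of_nonneg (Finset.sum_nonneg fun i _ => hd_nonneg _ _)]
    linarith [h3.trans h4]
  have hpt : ∀ i, Tendsto (fun k : ℕ => hd (σ k i) ((τ k).1 i)) atTop (𝓝 0) := fun i =>
    squeeze_zero (fun k => hd_nonneg _ _)
      (fun k => Finset.single_le_sum (f := fun i => hd (σ k i) ((τ k).1 i))
        (fun j _ => hd_nonneg _ _) (Finset.mem_univ i)) hsum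
  refine ⟨fun k => π.liftOfSurjective hπ ⟨FreeGroup.lift (τ k).1, fun w hw => ?_⟩, fun g => ?_⟩
  · exact (τ k).2 w hw
  · obtain ⟨w, rfl⟩ := hπ g
    have h1 := (word_close π n f hf' w).add (word_close' n σ (fun k => (τ k).1) hpt w)
    rw [add_zero] at h1
    refine squeeze_zero (fun k => hd_nonneg (f k (π w)) _) (fun k => ?_) h1
    have h2 : (π.liftOfSurjective hπ ⟨FreeGroup.lift (τ k).1, fun w hw => (τ k).2 w hw⟩) (π w) =
        FreeGroup.lift (τ k).1 w :=
      π.liftOfRightInverse_comp_apply _ _ _ w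
    change hd (f k (π w)) ((π.liftOfSurjective hπ
      ⟨FreeGroup.lift (τ k).1, fun w hw => (τ k).2 w hw⟩) (π w)) ≤ _
    rw [h2]
    refine (hd_triangle _ (FreeGroup.lift (σ k) w) _).trans ?_
    rw [hd_comm (f k (π w))]

end Pool.Agent.H6.MSL
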